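import Pool.Agent.H901.TS.A

/-! # Linear systems which specialize to the special family -/

set_option autoImplicit false
set_option linter.unusedSectionVars false
set_option linter.unusedVariables false

namespace Pool.Agent.H901.TS

open MvPolynomial FF Module Pool.Agent.Helper93K9.PAR Pool.Agent.H900.LF
open Pool.Agent.H900.PN hiding newton seg core
open Pool.Agent.H900.PC (gp1 ey sc Fsc coeff_Fsc indep_same base_gen fam_scale sc_ne sc_inv)

noncomputable section

theorem key_id {c φ z : ℂ} (hc : c ≠ 0) {w k : ℕ} (hw : w ≤ 3) (hk : k ≤ w) :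
    c * (c⁻¹ ^ k * (c⁻¹ * c ^ w * (φ + c * z))) = (if w = k then φ else 0) +
      ∑ i : Fin 4, c ^ (i.val + 1) * ((if w = k + (i.val + 1) then φ else 0) +
        (if w = k + i.val then z else 0)) := by
  rw [Fin.sum_univ_four]
  interval_cases w <;> interval_cases k <;> norm_num <;> field_simp

theorem exists_trans (k0 : IntermediateField ℚ ℂ) [Countable k0] {S : Type} [Finite S]
    (f : S → ℂ) : ∃ c : ℂ, Transcendental (IntermediateField.adjoin k0 (Set.range f)) c := by
  have h0 : Cardinal.mk k0 ≤ Cardinal.aleph0 := Cardinal.mk_le_aleph0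
  have h1 : Countable (IntermediateField.adjoin k0 (Set.range f)) := by
    have h1 := IntermediateField.cardinalMk_adjoin_le k0 (Set.range f)
    rw [← Cardinal.mk_le_aleph0_iff]
    refine h1.trans ?_
    refine max_le (max_le h0 ?_) le_rfl
    exact Cardinal.mk_le_aleph0
  have h2 := Algebraic.countable (IntermediateField.adjoin k0 (Set.range f)) ℂ
  by_contra hcon
  push Not at hcon
  have h3 : {x : ℂ | IsAlgebraic (IntermediateField.adjoin k0 (Set.range f)) x} = Set.univ := by
    rw [Set.eq_univ_iff_forall]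
    intro x
    have := hcon x
    unfold Transcendental at this
    exact not_not.1 this
  rw [h3] at h2
  exact not_countable_complex h2

theorem exists_HB2 {s n : ℕ} (D : Dat n (Fin s)) {i0 : Fin s} {T : Finset (Finset (Fin s))}
    {J : Type} [Fintype J] (e : J → Finset (Fin s) → MvPolynomial (Fin (n + 2)) ℂ) (wt : J → ℕ)
    (hwt : ∀ j, wt j ≤ 3) (hew : ∀ j, ∀ τ ∈ T, ∀ β, coeff β (e j τ) ≠ 0 → ey β ≤ wt j)
    (φ : J → ℚ)
    (hφ : ∀ τ ∈ T, ∀ β, algebraMap ℚ ℂ (coeff β (Phi ℚ D i0 τ)) =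
      ∑ j, if wt j = ey β then algebraMap ℚ ℂ (φ j) * coeff β (e j τ) else 0)
    (H : Finset (Fin s) → MvPolynomial (Fin (n + 2)) ℂ)
    (hH : ∀ τ ∈ T, ∀ β, coeff β (H τ) ≠ 0 → ey β = 0)
    (he3 : ∀ j, ∀ τ ∈ T, (e j τ).IsHomogeneous 3) (hH3 : ∀ τ ∈ T, (H τ).IsHomogeneous 3)
    (k0 : IntermediateField ℚ ℂ) [Countable k0] (hke : ∀ j, ∀ τ ∈ T, ∀ β, coeff β (e j τ) ∈ k0)
    (hkH : ∀ τ ∈ T, ∀ β, coeff β (H τ) ∈ k0) (a : J → ℂ)
    (ha : AlgebraicIndependent k0 a) (F : Finset (Fin s) → MvPolynomial (Fin (n + 2)) ℂ)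
    (hF : ∀ τ : {τ // τ ∈ T}, F τ.1 = H τ.1 + ∑ j, C (a j) * e j τ.1) :
    ∃ c : ℂ, c ≠ 0 ∧ HB2 D i0 T (Fsc c F) := by
  classical
  obtain ⟨c, hcT⟩ := exists_trans k0 a
  have hc0 : c ≠ 0 := by
    rintro rfl
    exact hcT (isAlgebraic_zero)
  let f : Option J → ℂ := fun o => o.elim c a
  have hf : AlgebraicIndependent k0 f := by
    refine (ha.option_iff_transcendental c).2 ?_
    exact (IntermediateField.transcendental_adjoin_iff).1 hcT
  let ψ : J → ℂ := fun p => algebraMap ℚ ℂ (φ p)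
  let z : Option J → ℂ := fun o => o.elim c
    fun p => c⁻¹ * (c * (c⁻¹ ^ wt p * a p) - ψ p)
  have hψk : ∀ (K : IntermediateField k0 ℂ) p, ψ p ∈ K := by
    intro K p
    have h1 : ψ p = algebraMap k0 ℂ (algebraMap ℚ k0 (φ p)) := rfl
    rw [h1]
    exact K.algebraMap_mem _
  have haz : ∀ p, a p = c⁻¹ * c ^ wt p * (ψ p + c * z (some p)) := by
    intro p
    show a p = c⁻¹ * c ^ wt p * (ψ p + c * (c⁻¹ * (c * (c⁻¹ ^ wt p * a p) - ψ p)))
    rw [← mul_assoc c c⁻¹, mul_inv_cancel₀ hc0, one_mul, add_sub_cancel, mul_comm c⁻¹, mul_assoc,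
      ← mul_assoc c⁻¹ c, inv_mul_cancel₀ hc0, one_mul, ← mul_assoc, ← mul_pow,
      mul_inv_cancel₀ hc0, one_pow, one_mul]
  have hzi : AlgebraicIndependent k0 z := by
    refine indep_same k0 hf (fun o => ?_) fun o => ?_
    · have hfm : ∀ o, f o ∈ IntermediateField.adjoin k0 (Set.range f) := fun p =>
        IntermediateField.subset_adjoin _ _ ⟨p, rfl⟩
      have hcm : c ∈ IntermediateField.adjoin k0 (Set.range f) := hfm none
      rcases o with - | p
      · exact hcm
      · exact mul_mem (inv_mem hcm) (sub_mem (mul_mem hcm (mul_mem (pow_mem (inv_mem hcm) _)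
          (hfm (some p)))) (hψk _ _))
    · have hzm : ∀ p, z p ∈ IntermediateField.adjoin k0 (Set.range z) := fun p =>
        IntermediateField.subset_adjoin _ _ ⟨p, rfl⟩
      have hcm : c ∈ IntermediateField.adjoin k0 (Set.range z) := hzm none
      rcases o with - | p
      · exact hcm
      · show a p ∈ _
        rw [haz]
        exact mul_mem (mul_mem (inv_mem hcm) (pow_mem hcm _))
          (add_mem (hψk _ _) (mul_mem hcm (hzm _)))
  obtain ⟨Ω, hΩ, hcΩ, halg, hkΩ, hzΩ⟩ := base_gen k0 z none hzi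
  -- the coefficients
  let GI : Fin 4 → {τ // τ ∈ T} → (Fin (n + 2) →₀ ℕ) → ℂ := fun i τ β =>
    (if i.val = 0 then coeff β (H τ.1) else 0) + ∑ j,
      ((if wt j = ey β + (i.val + 1) then ψ j else 0) +
        (if wt j = ey β + i.val then z (some j) else 0)) * coeff β (e j τ.1)
  have hGI : ∀ i τ β, GI i τ β ∈ Ω := by
    intro i τ β
    refine add_mem ?_ (sum_mem fun j _ => mul_mem (add_mem ?_ ?_) (hkΩ (hke _ _ τ.2 _)))
    · split_ifs
      · exact hkΩ (hkH _ τ.2 _)
      · exact zero_mem _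
    · split_ifs
      · have h1 : ψ j = algebraMap ℚ ℂ (φ j) := rfl
        rw [h1]
        exact Ω.algebraMap_mem _
      · exact zero_mem _
    · split_ifs
      · exact hzΩ _ (by simp)
      · exact zero_mem _
  have hfin : Set.Finite {β : Fin (n + 2) →₀ ℕ | β.degree = 3} := by
    have h2 := Finsupp.finite_of_degree_le (σ := Fin (n + 2)) 3
    exact h2.subset fun β (hβ : β.degree = 3) => le_of_eq hβ
  let mG : Fin 4 → {τ // τ ∈ T} → (Fin (n + 2) →₀ ℕ) → Ω := fun i τ β =>
    ⟨GI i τ β, hGI i τ β⟩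
  let G' : Fin 4 → {τ // τ ∈ T} → MvPolynomial (Fin (n + 2)) Ω := fun i τ =>
    ∑ β ∈ hfin.toFinset, monomial β (mG i τ β)
  have hG'c : ∀ i τ β, β.degree = 3 → algebraMap Ω ℂ (coeff β (G' i τ)) = GI i τ β := by
    intro i τ β hβ
    have h1 : coeff β (G' i τ) = mG i τ β := by
      show coeff β (∑ β ∈ hfin.toFinset, monomial β (mG i τ β)) = _
      rw [coeff_sum, Finset.sum_eq_single β]
      · rw [coeff_monomial, if_pos rfl]
      · intro β' _ h
        rw [coeff_monomial, if_neg h]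
      · intro h
        exact absurd (hfin.mem_toFinset.2 hβ) h
    rw [h1]
    rfl
  have hG'h : ∀ i τ, (G' i τ).IsHomogeneous 3 := by
    intro i τ
    refine IsHomogeneous.sum _ _ _ fun β hβ => ?_
    exact isHomogeneous_monomial _ (hfin.mem_toFinset.1 hβ)
  have hFh : ∀ τ : {τ // τ ∈ T}, (F τ.1).IsHomogeneous 3 := by
    intro τ
    rw [hF]
    refine (hH3 τ.1 τ.2).add (IsHomogeneous.sum _ _ _ fun j _ => ?_)
    rw [← zero_add 3]
    exact (isHomogeneous_C _ _).mul (he3 j _ τ.2)
  refine ⟨c, hc0, Ω, c, fun i τ => if h : τ ∈ T then G' i ⟨τ, h⟩ else 0, hΩ, hcΩ, halg,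
    fun i τ hτ => ?_, fun τ hτ => ?_⟩
  · beta_reduce
    rw [dif_pos hτ]
    exact hG'h _ _
  · simp only [dif_pos hτ]
    ext β
    rw [coeff_Fsc, coeff_add, coeff_map, coeff_sum]
    simp only [coeff_C_mul, coeff_map]
    by_cases h3 : β.degree = 3
    · have h4 : ∀ i, algebraMap Ω ℂ (coeff β (G' i ⟨τ, hτ⟩)) = GI i ⟨τ, hτ⟩ β :=
        fun i => hG'c i ⟨τ, hτ⟩ β h3
      simp only [h4]
      rw [hφ τ hτ β, hF ⟨τ, hτ⟩, coeff_add, coeff_sum]
      simp only [coeff_C_mul]
      -- the part of H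
      have h5 : c * (c⁻¹ ^ ey β * coeff β (H τ)) =
          ∑ i : Fin 4, c ^ (i.val + 1) * (if i.val = 0 then coeff β (H τ) else 0) := by
        have h6 : c⁻¹ ^ ey β * coeff β (H τ) = coeff β (H τ) := by
          by_cases h7 : coeff β (H τ) = 0
          · rw [h7, mul_zero]
          · rw [hH τ hτ β h7, pow_zero, one_mul]
        rw [h6, Fin.sum_univ_four]
        norm_num
      have h8 : ∀ j, c * (c⁻¹ ^ ey β * (a j * coeff β (e j τ))) =
          (if wt j = ey β then algebraMap ℚ ℂ (φ j) * coeff β (e j τ) else 0) +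
          ∑ i : Fin 4, c ^ (i.val + 1) * (((if wt j = ey β + (i.val + 1) then ψ j
            else 0) + (if wt j = ey β + i.val then z (some j) else 0)) *
              coeff β (e j τ)) := by
        intro j
        by_cases h9 : coeff β (e j τ) = 0
        · simp [h9]
        · have h10 := key_id (φ := ψ j) (z := z (some j)) hc0 (hwt j)
            (hew j τ hτ β h9)
          rw [haz]
          have h11 : (if wt j = ey β then algebraMap ℚ ℂ (φ j) * coeff β (e j τ) else 0) =
              (if wt j = ey β then ψ j else 0) * coeff β (e j τ) := by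
            split_ifs
            · rfl
            · rw [zero_mul]
          have h12 : c * (c⁻¹ ^ ey β * (c⁻¹ * c ^ wt j * (ψ j +
              c * z (some j)) * coeff β (e j τ))) =
              c * (c⁻¹ ^ ey β * (c⁻¹ * c ^ wt j * (ψ j +
              c * z (some j)))) * coeff β (e j τ) := by ring
          refine h12.trans ?_
          rw [h10, h11, add_mul, Finset.sum_mul]
          congr 1
          exact Finset.sum_congr rfl fun i _ => by ring
      rw [mul_add, mul_add, h5, Finset.mul_sum, Finset.mul_sum]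
      simp only [h8]
      rw [Finset.sum_add_distrib, Finset.sum_comm]
      show _ = _ + ∑ i : Fin 4, c ^ (i.val + 1) * ((if i.val = 0 then coeff β (H τ) else 0) + ∑ j,
      ((if wt j = ey β + (i.val + 1) then ψ j else 0) +
        (if wt j = ey β + i.val then z (some j) else 0)) * coeff β (e j τ))
      simp only [mul_add, Finset.sum_add_distrib, Finset.mul_sum, add_mul]
      ring
    · have h4 : ∀ i, coeff β (G' i ⟨τ, hτ⟩) = 0 := fun i => (hG'h i _).coeff_eq_zero h3
      simp only [h4, map_zero, mul_zero, Finset.sum_const_zero]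
      rw [(hFh ⟨τ, hτ⟩).coeff_eq_zero h3, (Phi_hom D i0 τ).coeff_eq_zero h3, map_zero]
      ring

end

end Pool.Agent.H901.TS
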