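import Pool.Agent.H901.TS.Ls

/-! # Families of cubic hypersurfaces through subvarieties of a hyperplane -/

set_option autoImplicit false
set_option linter.unusedSectionVars false
set_option linter.unusedVariables false

namespace Pool.Agent.H901.TS

open MvPolynomial FF Module Pool.Agent.Helper93K9.PAR Pool.Agent.H900.LF
open Pool.Agent.H900.PN hiding newton seg core
open Pool.Agent.H900.PC (gp1 ey sc Fsc coeff_Fsc indep_same base_gen fam_scale sc_ne sc_inv)

noncomputable section

/-- the data of the special cubic, with `a` variables on the first and `b` variables on the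
second side -/
theorem exists_dat2 {s a b : ℕ} {T : Finset (Finset (Fin s))} {i0 : Fin s} (hT0 : ∅ ∈ T)
    (hT1 : {i0} ∈ T) (ha1 : 1 ≤ a) (ha : a ≤ T.card) (hb : b < T.card) :
    ∃ (D : Dat (a + b) (Fin s)) (j0 : Fin (a + b)), D.side j0 = false ∧ D.sg j0 = {i0} ∧
      (∀ j, D.sg j ∈ T) ∧ (∀ j : Fin a, D.side (Fin.castAdd b j) = false) ∧
      ∀ j : Fin b, D.side (Fin.natAdd a j) = true := by
  classical
  obtain ⟨a, rfl⟩ : ∃ k, a = k + 1 := ⟨a - 1, by omega⟩
  obtain ⟨f⟩ : Nonempty (Fin a ↪ T.erase {i0}) := by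
    apply Function.Embedding.nonempty_of_card_le
    rw [Fintype.card_fin, Fintype.card_coe, Finset.card_erase_of_mem hT1]
    omega
  obtain ⟨g⟩ : Nonempty (Fin b ↪ T.erase (∅ : Finset (Fin s))) := by
    apply Function.Embedding.nonempty_of_card_le
    rw [Fintype.card_fin, Fintype.card_coe, Finset.card_erase_of_mem hT0]
    omega
  have hf : ∀ j, (f j).1 ≠ {i0} ∧ (f j).1 ∈ T := fun j => Finset.mem_erase.1 (f j).2
  have hg : ∀ j, (g j).1 ≠ ∅ ∧ (g j).1 ∈ T := fun j => Finset.mem_erase.1 (g j).2
  let e : Fin (a + 1) → Finset (Fin s) := Fin.cons {i0} fun j => (f j).1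
  have he : Function.Injective e := by
    intro x y
    refine Fin.cases ?_ (fun x => ?_) x <;> refine Fin.cases ?_ (fun y => ?_) y
    · exact fun _ => rfl
    · intro h
      exact absurd h.symm (hf y).1
    · intro h
      exact absurd h (hf x).1
    · intro h
      have h2 : x = y := f.injective (Subtype.ext h)
      rw [h2]
  let sd : Fin (a + 1 + b) → Bool := Fin.addCases (fun _ => false) fun _ => true
  let sg : Fin (a + 1 + b) → Finset (Fin s) := Fin.addCases e fun j => (g j).1
  have sdl : ∀ j, sd (Fin.castAdd b j) = false := fun j => Fin.addCases_left j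
  have sdr : ∀ j, sd (Fin.natAdd (a + 1) j) = true := fun j => Fin.addCases_right j
  have sgl : ∀ j, sg (Fin.castAdd b j) = e j := fun j => Fin.addCases_left j
  have sgr : ∀ j, sg (Fin.natAdd (a + 1) j) = (g j).1 := fun j => Fin.addCases_right j
  refine ⟨⟨sd, sg, fun i j => ?_, fun j => ?_⟩, Fin.castAdd b 0, sdl 0, ?_, fun j => ?_, sdl,
    sdr⟩
  · refine Fin.addCases (fun i => ?_) (fun i => ?_) i <;>
      refine Fin.addCases (fun j => ?_) (fun j => ?_) j
    · intro _ h
      rw [sgl, sgl] at h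
      rw [he h]
    · intro h
      rw [sdl, sdr] at h
      exact absurd h (by decide)
    · intro h
      rw [sdl, sdr] at h
      exact absurd h (by decide)
    · intro _ h
      rw [sgr, sgr] at h
      rw [g.injective (Subtype.ext h)]
  · refine Fin.addCases (fun j => ?_) (fun j => ?_) j
    · intro h
      rw [sdl] at h
      exact absurd h (by decide)
    · intro _
      rw [sgr]
      exact (hg j).1
  · exact sgl 0
  · refine Fin.addCases (fun j => ?_) (fun j => ?_) j
    · show sg (Fin.castAdd b j) ∈ T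
      rw [sgl]
      refine Fin.cases ?_ (fun j => ?_) j
      · exact hT1
      · exact (hf j).2
    · show sg (Fin.natAdd (a + 1) j) ∈ T
      rw [sgr]
      exact (hg j).2

theorem Ph1_hom {s n : ℕ} (D : Dat n (Fin s)) (τ : Finset (Fin s)) :
    (Ph1 D τ).IsHomogeneous 3 := by
  classical
  unfold Ph1
  refine IsHomogeneous.sum _ _ _ fun j _ => ?_
  split_ifs
  · exact (isHomogeneous_X ℂ _).mul ((isHomogeneous_X ℂ _).pow 2)
  · exact (isHomogeneous_X ℂ _).mul ((isHomogeneous_X ℂ _).pow 2)
  · exact isHomogeneous_zero _ _ _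

theorem Ph3_hom {s n : ℕ} (i0 : Fin s) (τ : Finset (Fin s)) :
    (Ph3 n i0 τ).IsHomogeneous 3 := by
  classical
  unfold Ph3
  refine IsHomogeneous.add ?_ ?_
  · split_ifs
    · exact (isHomogeneous_X ℂ _).mul (((isHomogeneous_X ℂ _).pow 2).add
        ((isHomogeneous_X ℂ _).pow 2))
    · exact isHomogeneous_zero _ _ _
  · split_ifs
    · exact (isHomogeneous_X ℂ _).mul ((isHomogeneous_X ℂ _).pow 2)
    · exact isHomogeneous_zero _ _ _

theorem Ph3_zero {s n : ℕ} (i0 : Fin s) (τ : Finset (Fin s)) (x : Fin (n + 2) → ℂ)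
    (hx : x (Fin.last (n + 1)) = 0) : aeval x (Ph3 n i0 τ) = 0 := by
  classical
  unfold Ph3
  rw [map_add]
  have h1 : aeval x (if τ = ∅ then X (Fin.last (n + 1)) * (X 0 ^ 2 + X (Fin.last (n + 1)) ^ 2)
      else (0 : MvPolynomial (Fin (n + 2)) ℂ)) = 0 := by
    split_ifs
    · rw [map_mul, aeval_X, hx, zero_mul]
    · exact map_zero _
  have h2 : aeval x (if τ = {i0} then X 0 * X (Fin.last (n + 1)) ^ 2
      else (0 : MvPolynomial (Fin (n + 2)) ℂ)) = 0 := by
    split_ifs
    · rw [map_mul, map_pow, aeval_X, aeval_X, hx, zero_pow two_ne_zero, mul_zero]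
    · exact map_zero _
  rw [h1, h2, add_zero]

/-- the form of weight one, corrected by forms of weight zero, vanishes on the subvariety -/
theorem Ph1_zero {s a b : ℕ} (D : Dat (a + b) (Fin s))
    (hl : ∀ j : Fin a, D.side (Fin.castAdd b j) = false)
    (hr : ∀ j : Fin b, D.side (Fin.natAdd a j) = true)
    (r : Fin a → MvPolynomial (Fin (a + b + 2)) ℂ) (τ : Finset (Fin s))
    (x : Fin (a + b + 2) → ℂ) (hx : x (Fin.last (a + b + 1)) = 0)
    (hxr : ∀ j : Fin a, x 0 * x (Fin.castAdd b j).castSucc.succ ^ 2 = aeval x (r j)) :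
    aeval x (Ph1 D τ + open Classical in
      ∑ j : Fin a, if D.sg (Fin.castAdd b j) = τ then - r j else 0) = 0 := by
  classical
  unfold Ph1
  rw [Fin.sum_univ_add, map_add, map_add, map_sum, map_sum, map_sum]
  have h2 : ∑ j : Fin b, aeval x (if D.sg (Fin.natAdd a j) = τ then
      (if D.side (Fin.natAdd a j) = true then X (Fin.last (a + b + 1)) else X 0) *
      X (Fin.natAdd a j).castSucc.succ ^ 2 else (0 : MvPolynomial (Fin (a + b + 2)) ℂ)) = 0 := by
    refine Finset.sum_eq_zero fun j _ => ?_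
    rw [if_pos (hr j)]
    split_ifs
    · rw [map_mul, map_pow, aeval_X, aeval_X, hx, zero_mul]
    · exact map_zero _
  rw [h2, add_zero, ← Finset.sum_add_distrib]
  refine Finset.sum_eq_zero fun j _ => ?_
  rw [if_neg (show ¬ D.side (Fin.castAdd b j) = true by rw [hl]; decide)]
  split_ifs
  · rw [map_mul, map_pow, map_neg, aeval_X, aeval_X, ← hxr, add_neg_cancel]
  · rw [map_zero, add_zero]

end

end Pool.Agent.H901.TS
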