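import Pool.Agent.H901.TS.Vg

/-! # Linear systems of families of cubic forms -/

set_option autoImplicit false
set_option linter.unusedSectionVars false
set_option linter.unusedVariables false

namespace Pool.Agent.H901.TS

open MvPolynomial FF Module Pool.Agent.Helper93K9.PAR Pool.Agent.H900.LF
open Pool.Agent.H900.PN hiding newton seg core
open Pool.Agent.H900.PC (gp1 ey sc Fsc coeff_Fsc indep_same base_gen fam_scale sc_ne sc_inv)

noncomputable section

variable {s n : ℕ}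

/-- the part of weight one of the special family -/
def Ph1 (D : Dat n (Fin s)) (τ : Finset (Fin s)) : MvPolynomial (Fin (n + 2)) ℂ :=
  open Classical in
  ∑ j, if D.sg j = τ then (if D.side j = true then X (Fin.last (n + 1)) else X 0) *
    X j.castSucc.succ ^ 2 else 0

/-- the part of weight three of the special family -/
def Ph3 (n : ℕ) (i0 : Fin s) (τ : Finset (Fin s)) : MvPolynomial (Fin (n + 2)) ℂ :=
  open Classical in
  (if τ = ∅ then X (Fin.last (n + 1)) * (X 0 ^ 2 + X (Fin.last (n + 1)) ^ 2) else 0) +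
    (if τ = {i0} then X 0 * X (Fin.last (n + 1)) ^ 2 else 0)

theorem Phi_eq (D : Dat n (Fin s)) (i0 : Fin s) (τ : Finset (Fin s)) :
    Phi ℂ D i0 τ = Ph1 D τ + Ph3 n i0 τ := by
  unfold Phi Ph1 Ph3
  rw [add_assoc]
  congr!

theorem zl {n : ℕ} : (0 : Fin (n + 2)) ≠ Fin.last (n + 1) := by
  intro h
  exact absurd (congrArg Fin.val h) (by simp)

theorem ml {n : ℕ} (j : Fin n) : j.castSucc.succ ≠ Fin.last (n + 1) := by
  intro h
  have h3 := congrArg Fin.val h
  simp only [Fin.val_succ, Fin.val_castSucc, Fin.val_last] at h3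
  have := j.isLt
  omega

theorem mz {n : ℕ} (j : Fin n) : j.castSucc.succ ≠ (0 : Fin (n + 2)) := Fin.succ_ne_zero _

theorem ey_add {n : ℕ} (a b : Fin (n + 2) →₀ ℕ) : ey (a + b) = ey a + ey b := by
  unfold ey
  rw [Finsupp.add_apply, Finsupp.add_apply]
  ring

theorem ey_single_z {n : ℕ} (k : ℕ) : ey (Finsupp.single (0 : Fin (n + 2)) k) = k := by
  unfold ey
  rw [Finsupp.single_eq_same, Finsupp.single_eq_of_ne zl.symm, add_zero]

theorem ey_single_l {n : ℕ} (k : ℕ) : ey (Finsupp.single (Fin.last (n + 1)) k) = k := by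
  unfold ey
  rw [Finsupp.single_eq_same, Finsupp.single_eq_of_ne zl, zero_add]

theorem ey_single_m {n : ℕ} (j : Fin n) (k : ℕ) :
    ey (Finsupp.single (j.castSucc.succ : Fin (n + 2)) k) = 0 := by
  unfold ey
  rw [Finsupp.single_eq_of_ne (mz j).symm, Finsupp.single_eq_of_ne (ml j).symm, add_zero]

theorem mon2 {r : ℕ} (a b : Fin r) : (X a * X b ^ 2 : MvPolynomial (Fin r) ℂ) =
    monomial (Finsupp.single a 1 + Finsupp.single b 2) 1 := by
  rw [X_pow_eq_monomial, X, monomial_mul, mul_one]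

theorem w_mon {a b : Fin (n + 2)} {β : Fin (n + 2) →₀ ℕ}
    (h : coeff β (X a * X b ^ 2 : MvPolynomial (Fin (n + 2)) ℂ) ≠ 0) :
    ey β = ey (Finsupp.single a 1) + ey (Finsupp.single b 2) := by
  rw [mon2, coeff_monomial] at h
  split_ifs at h with h2
  · rw [← h2, ey_add]
  · exact absurd rfl h

theorem w_add {k : ℕ} {p q : MvPolynomial (Fin (n + 2)) ℂ}
    (hp : ∀ β, coeff β p ≠ 0 → ey β = k) (hq : ∀ β, coeff β q ≠ 0 → ey β = k) :
    ∀ β, coeff β (p + q) ≠ 0 → ey β = k := by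
  intro β h
  rw [coeff_add] at h
  by_cases h2 : coeff β p = 0
  · rw [h2, zero_add] at h
    exact hq β h
  · exact hp β h2

theorem Ph1_w (D : Dat n (Fin s)) (τ : Finset (Fin s)) (β : Fin (n + 2) →₀ ℕ)
    (h : coeff β (Ph1 D τ) ≠ 0) : ey β = 1 := by
  classical
  unfold Ph1 at h
  rw [coeff_sum] at h
  obtain ⟨j, -, hj⟩ := Finset.exists_ne_zero_of_sum_ne_zero h
  split_ifs at hj
  · have := w_mon hj
    rw [this, ey_single_l, ey_single_m]
  · have := w_mon hj
    rw [this, ey_single_z, ey_single_m]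
  · exact absurd (coeff_zero β) hj

theorem Ph3_w (i0 : Fin s) (τ : Finset (Fin s)) (β : Fin (n + 2) →₀ ℕ)
    (h : coeff β (Ph3 n i0 τ) ≠ 0) : ey β = 3 := by
  classical
  revert h
  revert β
  unfold Ph3
  refine w_add (fun β h => ?_) (fun β h => ?_)
  · split_ifs at h
    · rw [mul_add] at h
      revert h
      revert β
      refine w_add (fun β h => ?_) (fun β h => ?_)
      · rw [w_mon h, ey_single_l, ey_single_z]
      · rw [w_mon h, ey_single_l, ey_single_l]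
    · exact absurd (coeff_zero β) h
  · split_ifs at h
    · rw [w_mon h, ey_single_z, ey_single_l]
    · exact absurd (coeff_zero β) h

theorem Ph1_ne (D : Dat n (Fin s)) (j0 : Fin n) :
    ∃ β, ey β = 1 ∧ coeff β (Ph1 D (D.sg j0)) = 1 := by
  classical
  let a : Fin n → Fin (n + 2) := fun j => if D.side j = true then Fin.last (n + 1) else 0
  have ha : ∀ j, ey (Finsupp.single (a j) 1) = 1 := by
    intro j
    show ey (Finsupp.single (if D.side j = true then Fin.last (n + 1) else 0) 1) = 1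
    split_ifs
    · rw [ey_single_l]
    · rw [ey_single_z]
  have ha' : ∀ j j' : Fin n, a j ≠ j'.castSucc.succ := by
    intro j j'
    show (if D.side j = true then Fin.last (n + 1) else 0) ≠ j'.castSucc.succ
    split_ifs
    · exact (ml j').symm
    · exact (mz j').symm
  refine ⟨Finsupp.single (a j0) 1 + Finsupp.single j0.castSucc.succ 2, ?_, ?_⟩
  · rw [ey_add, ha, ey_single_m]
  · unfold Ph1
    rw [coeff_sum, Finset.sum_eq_single j0]
    · have h1 : ((if D.side j0 = true then X (Fin.last (n + 1)) else X 0) :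
          MvPolynomial (Fin (n + 2)) ℂ) = X (a j0) := by
        show _ = X (if D.side j0 = true then Fin.last (n + 1) else 0)
        split_ifs <;> rfl
      rw [if_pos rfl, h1, mon2, coeff_monomial, if_pos rfl]
    · intro j _ hj
      split_ifs
      all_goals
        first
        | exact coeff_zero _
        | (rw [mon2, coeff_monomial, if_neg]
           intro h
           have h2 := DFunLike.congr_fun h (j0.castSucc.succ)
           rw [Finsupp.add_apply, Finsupp.add_apply, Finsupp.single_eq_same (a := j0.castSucc.succ),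
             Finsupp.single_eq_of_ne (ha' j0 j0).symm] at h2
           rw [Finsupp.single_eq_of_ne (a := j.castSucc.succ)] at h2
           · rw [Finsupp.single_eq_of_ne (by first | exact ml j0 | exact mz j0)] at h2
             exact absurd h2 (by decide)
           · intro h4
             exact hj (Fin.castSucc_injective _ (Fin.succ_injective _ h4)).symm)
    · intro h
      exact absurd (Finset.mem_univ _) h

theorem Ph3_one (i0 : Fin s) :
    ∃ β : Fin (n + 2) →₀ ℕ, ey β = 3 ∧ coeff β (Ph3 n i0 ∅) = 1 := by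
  classical
  refine ⟨Finsupp.single (Fin.last (n + 1)) 1 + Finsupp.single (Fin.last (n + 1)) 2, ?_, ?_⟩
  · rw [ey_add, ey_single_l, ey_single_l]
  · unfold Ph3
    rw [if_pos rfl, if_neg (Finset.singleton_ne_empty i0).symm, add_zero, mul_add, coeff_add,
      mon2, mon2, coeff_monomial, coeff_monomial, if_pos rfl, if_neg, zero_add]
    intro h
    have h2 := DFunLike.congr_fun h 0
    rw [Finsupp.add_apply, Finsupp.add_apply, Finsupp.single_eq_same (a := (0 : Fin (n + 2))),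
      Finsupp.single_eq_of_ne zl, Finsupp.single_eq_of_ne zl] at h2
    exact absurd h2 (by decide)

theorem ey_le_deg (β : Fin (n + 2) →₀ ℕ) : ey β ≤ β.degree := by
  unfold ey
  rw [Finsupp.degree_eq_sum, Fin.sum_univ_succ, Fin.sum_univ_castSucc]
  have h1 : β (Fin.last n).succ = β (Fin.last (n + 1)) := rfl
  rw [h1]
  omega

theorem fd_of_le {T : Type} [Finite T] {r : ℕ} (W : Submodule ℂ (T → MvPolynomial (Fin r) ℂ))
    (hW : ∀ F ∈ W, ∀ τ, (F τ).IsHomogeneous 3) : FiniteDimensional ℂ W := by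
  classical
  have hTf : Fintype T := Fintype.ofFinite T
  let S : Submodule ℂ (MvPolynomial (Fin r) ℂ) :=
    Submodule.span ℂ ((fun β => monomial β (1 : ℂ)) '' {β : Fin r →₀ ℕ | β.degree = 3})
  have hS : FiniteDimensional ℂ S := FiniteDimensional.span_of_finite ℂ ((fin_deg r).image _)
  have h1 : ∀ p : MvPolynomial (Fin r) ℂ, p.IsHomogeneous 3 → p ∈ S := by
    intro p hp3
    rw [← p.support_sum_monomial_coeff]
    refine Submodule.sum_mem _ fun β hβ => ?_
    have h2 : monomial β (coeff β p) = (coeff β p) • monomial β (1 : ℂ) := by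
      rw [smul_monomial, smul_eq_mul, mul_one]
    rw [h2]
    refine Submodule.smul_mem _ _ (Submodule.subset_span ⟨β, ?_, rfl⟩)
    by_contra h3
    exact (mem_support_iff.1 hβ) (hp3.coeff_eq_zero h3)
  let f : W →ₗ[ℂ] (T → S) :=
    { toFun := fun w τ => ⟨w.1 τ, h1 _ (hW w.1 w.2 τ)⟩
      map_add' := fun a b => rfl
      map_smul' := fun a b => rfl }
  refine FiniteDimensional.of_injective f fun a b h => ?_
  apply Subtype.ext
  funext τ
  exact congrArg Subtype.val (congrFun h τ)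

theorem linear_system (D : Dat n (Fin s)) {i0 : Fin s} {j0 : Fin n}
    {T : Finset (Finset (Fin s))} (hT0 : ∅ ∈ T) (hTj : D.sg j0 ∈ T)
    (W : Submodule ℂ ({τ // τ ∈ T} → MvPolynomial (Fin (n + 2)) ℂ))
    (hW : ∀ F ∈ W, ∀ τ, (F τ).IsHomogeneous 3)
    (hE1 : ∃ R : {τ // τ ∈ T} → MvPolynomial (Fin (n + 2)) ℂ,
      (∀ τ β, coeff β (R τ) ≠ 0 → ey β = 0) ∧ (fun τ => Ph1 D τ.1 + R τ) ∈ W)
    (hE3 : ∃ R : {τ // τ ∈ T} → MvPolynomial (Fin (n + 2)) ℂ,
      (∀ τ β, coeff β (R τ) ≠ 0 → ey β < 3) ∧ (fun τ => Ph3 n i0 τ.1 + R τ) ∈ W)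
    (H : {τ // τ ∈ T} → MvPolynomial (Fin (n + 2)) ℂ) (hH : ∀ τ, (H τ).IsHomogeneous 3)
    (hH0 : ∀ τ β, coeff β (H τ) ≠ 0 → ey β = 0) :
    ∃ Ps : Set (MvPolynomial ({τ // τ ∈ T} × (Fin (n + 2) →₀ ℕ)) ℂ), Ps.Countable ∧
      (∀ Q ∈ Ps, ∃ F : {τ // τ ∈ T} → MvPolynomial (Fin (n + 2)) ℂ, F - H ∈ W ∧
        aeval (fun c : {τ // τ ∈ T} × (Fin (n + 2) →₀ ℕ) => coeff c.2 (F c.1)) Q ≠ 0) ∧
      ∀ F : {τ // τ ∈ T} → MvPolynomial (Fin (n + 2)) ℂ, F - H ∈ W →
        (∀ Q ∈ Ps, aeval (fun c : {τ // τ ∈ T} × (Fin (n + 2) →₀ ℕ) => coeff c.2 (F c.1)) Q ≠ 0) →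
        ∀ F' : Finset (Fin s) → MvPolynomial (Fin (n + 2)) ℂ,
          (∀ τ : {τ // τ ∈ T}, F' τ.1 = F τ) → ∃ c : ℂ, c ≠ 0 ∧ HB2 D i0 T (Fsc c F') := by
  classical
  obtain ⟨R1, hR1, hE1⟩ := hE1
  obtain ⟨R3, hR3, hE3⟩ := hE3
  have hR1z : ∀ τ β, ey β ≠ 0 → coeff β (R1 τ) = 0 := by
    intro τ β h
    by_contra h2
    exact h (hR1 τ β h2)
  have hR3z : ∀ τ β, ey β = 3 → coeff β (R3 τ) = 0 := by
    intro τ β h
    by_contra h2
    have := hR3 τ β h2
    omega
  have hP1z : ∀ τ β, ey β ≠ 1 → coeff β (Ph1 D τ) = 0 := by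
    intro τ β h
    by_contra h2
    exact h (Ph1_w D τ β h2)
  have hP3z : ∀ τ β, ey β ≠ 3 → coeff β (Ph3 n i0 τ) = 0 := by
    intro τ β h
    by_contra h2
    exact h (Ph3_w i0 τ β h2)
  have hvi : LinearIndependent ℂ (![⟨_, hE1⟩, ⟨_, hE3⟩] : Fin 2 → W) := by
    rw [LinearIndependent.pair_iff]
    intro x y hxy
    have h1 : ∀ τ β, x * (coeff β (Ph1 D τ.1) + coeff β (R1 τ)) +
        y * (coeff β (Ph3 n i0 τ.1) + coeff β (R3 τ)) = 0 := by
      intro τ β
      have h2 := congrArg (fun w : W => coeff β (w.1 τ)) hxy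
      simp only [Submodule.coe_add, Submodule.coe_smul, Pi.add_apply, Pi.smul_apply, coeff_add,
        coeff_smul, smul_eq_mul, ZeroMemClass.coe_zero, Pi.zero_apply, coeff_zero] at h2
      exact h2
    have hy : y = 0 := by
      obtain ⟨β, hβ, hβ1⟩ := Ph3_one (n := n) i0
      have h2 := h1 ⟨∅, hT0⟩ β
      rw [hP1z _ _ (by omega), hR1z _ _ (by omega), hβ1, hR3z _ _ hβ] at h2
      linear_combination h2
    have hx : x = 0 := by
      obtain ⟨β, hβ, hβ1⟩ := Ph1_ne D j0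
      have h2 := h1 ⟨D.sg j0, hTj⟩ β
      rw [hβ1, hR1z _ _ (by omega), hy] at h2
      linear_combination h2
    exact ⟨hx, hy⟩
  have hfd := fd_of_le W hW
  obtain ⟨J, hJ, b, hb⟩ := exists_basis hvi
  have hJf : Fintype J := Fintype.ofFinite J
  have hb0 : ∀ τ : {τ // τ ∈ T}, (b (Sum.inl 0)).1 τ = Ph1 D τ.1 + R1 τ := by
    intro τ
    rw [hb 0]
    rfl
  have hb1 : ∀ τ : {τ // τ ∈ T}, (b (Sum.inl 1)).1 τ = Ph3 n i0 τ.1 + R3 τ := by
    intro τ
    rw [hb 1]
    rfl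
  obtain ⟨k0, hk0c, Ps, hPs, hkb, hkH, hne, hgen⟩ := very_general (T := {τ // τ ∈ T}) W hW b H hH
  refine ⟨Ps, hPs, hne, fun F hF hQ F' hF' => ?_⟩
  have ha := hgen F hF hQ
  let H' : Finset (Fin s) → MvPolynomial (Fin (n + 2)) ℂ := fun τ =>
    if h : τ ∈ T then H ⟨τ, h⟩ else 0
  have hH' : ∀ τ : {τ // τ ∈ T}, H' τ.1 = H τ := fun τ => dif_pos τ.2
  let e : Fin 2 ⊕ J → Finset (Fin s) → MvPolynomial (Fin (n + 2)) ℂ := fun j τ =>
    if h : τ ∈ T then (b j).1 ⟨τ, h⟩ else 0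
  have he : ∀ j, ∀ τ : {τ // τ ∈ T}, e j τ.1 = (b j).1 τ := fun j τ => dif_pos τ.2
  refine exists_HB2 (J := Fin 2 ⊕ J) D e (Sum.elim ![1, 3] fun _ => 3) ?_ ?_
    (Sum.elim ![1, 1] fun _ => 0) ?_ H' ?_ ?_ ?_ k0 ?_ ?_ _ ha F' ?_
  · rintro (i | j)
    · fin_cases i
      · show 1 ≤ 3
        decide
      · exact le_refl 3
    · exact le_refl 3
  · rintro (i | j) τ hτ β h
    · rw [he _ ⟨τ, hτ⟩] at h
      fin_cases i
      · show ey β ≤ 1
        have h' : coeff β ((b (Sum.inl 0)).1 ⟨τ, hτ⟩) ≠ 0 := h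
        rw [hb0, coeff_add] at h'
        by_cases h2 : coeff β (Ph1 D τ) = 0
        · rw [h2, zero_add] at h'
          rw [hR1 _ β h']
          omega
        · rw [Ph1_w D τ β h2]
      · show ey β ≤ 3
        have h' : coeff β ((b (Sum.inl 1)).1 ⟨τ, hτ⟩) ≠ 0 := h
        rw [hb1, coeff_add] at h'
        by_cases h2 : coeff β (Ph3 n i0 τ) = 0
        · rw [h2, zero_add] at h'
          exact (hR3 _ β h').le
        · rw [Ph3_w i0 τ β h2]
    · show ey β ≤ 3
      rw [he _ ⟨τ, hτ⟩] at h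
      have h3 : ((b (Sum.inr j)).1 ⟨τ, hτ⟩).IsHomogeneous 3 := hW _ (b (Sum.inr j)).2 _
      have h4 : β.degree = 3 := by
        by_contra h5
        exact h (h3.coeff_eq_zero h5)
      rw [← h4]
      exact ey_le_deg β
  · intro τ hτ β
    have hmap : algebraMap ℚ ℂ (coeff β (Phi ℚ D i0 τ)) =
        coeff β (Ph1 D τ) + coeff β (Ph3 n i0 τ) := by
      rw [← coeff_map, Phi_map, Phi_eq, coeff_add]
    rw [hmap, Fintype.sum_sum_type]
    have h1 : ∑ j : J, (if (Sum.elim ![1, 3] (fun _ => 3) : Fin 2 ⊕ J → ℕ) (Sum.inr j) =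
        ey β then algebraMap ℚ ℂ ((Sum.elim ![1, 1]
        (fun _ => 0) : Fin 2 ⊕ J → ℚ) (Sum.inr j)) * coeff β (e (Sum.inr j) τ)
          else 0) = 0 := by
      refine Finset.sum_eq_zero fun j _ => ?_
      rw [Sum.elim_inr, Sum.elim_inr, map_zero, zero_mul, ite_self]
    rw [h1, add_zero, Fin.sum_univ_two]
    have h2 : e (Sum.inl 0) τ = Ph1 D τ + R1 ⟨τ, hτ⟩ := by
      rw [he _ ⟨τ, hτ⟩, hb0]
    have h3 : e (Sum.inl 1) τ = Ph3 n i0 τ + R3 ⟨τ, hτ⟩ := by
      rw [he _ ⟨τ, hτ⟩, hb1]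
    show _ = (if 1 = ey β then algebraMap ℚ ℂ 1 * coeff β (e (Sum.inl 0) τ) else 0) +
      (if 3 = ey β then algebraMap ℚ ℂ 1 * coeff β (e (Sum.inl 1) τ) else 0)
    rw [h2, h3, map_one, one_mul, one_mul, coeff_add, coeff_add]
    congr 1
    · split_ifs with h4
      · rw [hR1z _ _ (by omega), add_zero]
      · exact hP1z _ _ (fun h => h4 h.symm)
    · split_ifs with h4
      · rw [hR3z _ _ h4.symm, add_zero]
      · exact hP3z _ _ (fun h => h4 h.symm)
  · intro τ hτ β h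
    rw [hH' ⟨τ, hτ⟩] at h
    exact hH0 _ _ h
  · intro j τ hτ
    rw [he _ ⟨τ, hτ⟩]
    exact hW _ (b j).2 _
  · intro τ hτ
    rw [hH' ⟨τ, hτ⟩]
    exact hH _
  · intro j τ hτ β
    rw [he _ ⟨τ, hτ⟩]
    exact hkb _ _ _
  · intro τ hτ β
    rw [hH' ⟨τ, hτ⟩]
    exact hkH _ _
  · intro τ
    rw [hF', hH']
    have h1 := congrArg (fun w : W => w.1 τ) (b.sum_repr ⟨F - H, hF⟩)
    simp only [Submodule.coe_sum, Finset.sum_apply, Submodule.coe_smul, Pi.smul_apply,
      Pi.sub_apply, smul_eq_C_mul] at h1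
    have h2 : ∑ j, C (b.repr ⟨F - H, hF⟩ j) * e j τ.1 =
        ∑ j, C (b.repr ⟨F - H, hF⟩ j) * (b j).1 τ :=
      Finset.sum_congr rfl fun j _ => by rw [he j τ]
    rw [h2, h1]
    ring

end

end Pool.Agent.H901.TS
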