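import Pool.Agent.H901.TS.Ex

/-! # The main theorem for families which specialize to the special family after a scaling -/

set_option autoImplicit false
set_option linter.unusedSectionVars false
set_option linter.unusedVariables false

namespace Pool.Agent.H901.TS

open MvPolynomial FF Module Pool.Agent.Helper93K9.PAR Pool.Agent.H900.LF
open Pool.Agent.H900.PN hiding newton seg core
open Pool.Agent.H900.PC (gp1 ey sc Fsc coeff_Fsc indep_same base_gen fam_scale sc_ne sc_inv)

noncomputable section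

theorem phi_last {s n : ℕ} (D : Dat n (Fin s)) (i0 : Fin s) :
    coeff (Finsupp.single (Fin.last (n + 1)) 3) (Phi ℚ D i0 ∅) = 1 := by
  classical
  have h1 : aeval (Pi.single (Fin.last (n + 1)) 1 : Fin (n + 2) → ℚ) (Phi ℚ D i0 ∅) =
      algebraMap ℚ ℚ (coeff (Finsupp.single (Fin.last (n + 1)) 3) (Phi ℚ D i0 ∅)) :=
    TrL.aeval_single (Phi_hom D i0 ∅) _ _ (Pi.single_eq_same _ _)
      fun i hi => Pi.single_eq_of_ne hi _
  have h2 : algebraMap ℚ ℚ (coeff (Finsupp.single (Fin.last (n + 1)) 3) (Phi ℚ D i0 ∅)) =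
      coeff (Finsupp.single (Fin.last (n + 1)) 3) (Phi ℚ D i0 ∅) := rfl
  rw [← h2, ← h1]
  have h0l : (0 : Fin (n + 2)) ≠ Fin.last (n + 1) := by
    intro h
    exact absurd (congrArg Fin.val h) (by simp)
  unfold Phi
  rw [map_add, map_add, map_sum, Finset.sum_eq_zero, zero_add, if_pos rfl, if_neg, map_zero,
    add_zero]
  · simp only [map_mul, map_add, map_pow, aeval_X, Pi.single_eq_same]
    rw [Pi.single_eq_of_ne h0l]
    norm_num
  · exact (Finset.singleton_ne_empty i0).symm
  · intro j _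
    split_ifs
    all_goals
      first
      | exact map_zero _
      | (rw [map_mul, map_pow, aeval_X (R := ℚ) _ j.castSucc.succ, Pi.single_eq_of_ne
          (show j.castSucc.succ ≠ Fin.last (n + 1) by
            intro h
            have h3 := congrArg Fin.val h
            simp only [Fin.val_succ, Fin.val_castSucc, Fin.val_last] at h3
            have := j.isLt
            omega), zero_pow two_ne_zero, mul_zero])

theorem hb2_last {s n : ℕ} (D : Dat n (Fin s)) {i0 : Fin s} {T : Finset (Finset (Fin s))}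
    (hT0 : ∅ ∈ T) {F : Finset (Fin s) → MvPolynomial (Fin (n + 2)) ℂ} (hB : HB2 D i0 T F) :
    coeff (Finsupp.single (Fin.last (n + 1)) 3) (F ∅) ≠ 0 := by
  obtain ⟨Ω, c, G, hΩ, hc, -, -, hFG⟩ := hB
  rw [hFG ∅ hT0, coeff_add, coeff_map, phi_last, map_one, coeff_sum]
  simp only [coeff_C_mul, coeff_map]
  intro h
  apply hc
  refine ⟨1 + ∑ i : Fin 4, Polynomial.X ^ (i.val + 1) *
    Polynomial.C (coeff (Finsupp.single (Fin.last (n + 1)) 3) (G i ∅)), ?_, ?_⟩
  · intro h2
    have h3 := congrArg (fun p => Polynomial.coeff p 0) h2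
    simp only [Polynomial.coeff_add, Polynomial.finsetSum_coeff, Polynomial.coeff_one_zero,
      Polynomial.coeff_zero, Polynomial.mul_coeff_zero, Polynomial.coeff_X_pow] at h3
    simp at h3
  · rw [map_add, map_one, map_sum, ← h]
    congr 1
    refine Finset.sum_congr rfl fun i _ => ?_
    rw [map_mul, map_pow, Polynomial.aeval_X, Polynomial.aeval_C]

theorem main_scale {s n m : ℕ} (D : Dat n (Fin s)) {i0 : Fin s} {j0 : Fin n}
    (hj0 : D.side j0 = false) (hj1 : D.sg j0 = {i0}) {T : Finset (Finset (Fin s))}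
    (hT0 : ∅ ∈ T) (hT1 : {i0} ∈ T) (hTD : ∀ j, D.sg j ∈ T)
    {F : Finset (Fin s) → MvPolynomial (Fin (n + 2)) ℂ} (hF : ∀ τ ∈ T, (F τ).IsHomogeneous 3)
    (hex : ∃ c : ℂ, c ≠ 0 ∧ HB2 D i0 T (Fsc c F))
    {M : Type} [Field M] [Algebra (Kt s) M] (g : Fin (n + 2) → M) (R : Fin m → M)
    (hg0 : g ≠ 0) (hg : aeval g (fam T F) = 0) {ι' : Type} {y : ι' → M}
    (hy : AlgebraicIndependent (Kt s) y) (hc : ((n + m : ℕ) : Cardinal) ≤ Cardinal.mk ι')
    (hodd : Odd (finrank (IntermediateField.adjoin (Kt s)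
      ({z | ∃ i j, z = g i / g j} ∪ Set.range R)) M))
    (l : Fin (n + 2) → M) (hl : ∀ i, IsAlgebraic (Kt s) (l i)) :
    ¬ Relation.ReflTransGen (Joined (fam T F)) g l := by
  classical
  intro hch
  obtain ⟨c, hc0, hB⟩ := hex
  let _ : Algebra ℂ M := ((algebraMap (Kt s) M).comp (algebraMap ℂ (Kt s))).toAlgebra
  have _ : IsScalarTower ℂ (Kt s) M := IsScalarTower.of_algebraMap_eq fun _ => rfl
  have _ : IsScalarTower ℂ (Kt s) (Polynomial M) := IsScalarTower.of_algebraMap_eq fun _ => rfl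
  have hF' : ∀ τ ∈ T, (Fsc c F τ).IsHomogeneous 3 := by
    intro τ hτ β hβ
    rw [coeff_Fsc] at hβ
    exact hF τ hτ (right_ne_zero_of_mul (right_ne_zero_of_mul hβ))
  have hco : coeff (Finsupp.single (Fin.last (n + 1)) 3) (fam T (Fsc c F)) ≠ 0 :=
    fam_coeff hT0 _ (hb2_last D hT0 hB)
  let u : Fin (n + 2) → Kt s := fun i => algebraMap ℂ (Kt s) (sc c i)
  have hu0 : ∀ i, u i ≠ 0 := fun i => by
    show algebraMap ℂ (Kt s) (sc c i) ≠ 0
    rw [Ne, map_eq_zero]
    exact sc_ne hc0 i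
  have hv0 : ∀ i, algebraMap (Kt s) M (u i) ≠ 0 := fun i => by
    rw [Ne, map_eq_zero]
    exact hu0 i
  have huv : ∀ i, algebraMap ℂ M (sc c⁻¹ i) * algebraMap (Kt s) M (u i) = 1 := by
    intro i
    show algebraMap ℂ M (sc c⁻¹ i) * algebraMap ℂ M (sc c i) = 1
    rw [← map_mul, sc_inv hc0, map_one]
  let σ : (Fin (n + 2) → M) → Fin (n + 2) → M := fun a i => algebraMap (Kt s) M (u i) * a i
  have hσ0 : ∀ a, a ≠ 0 → σ a ≠ 0 := by
    intro a ha h
    apply ha
    funext i
    have h1 : algebraMap (Kt s) M (u i) * a i = 0 := congrFun h i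
    exact (mul_eq_zero.1 h1).resolve_left (hv0 i)
  have hadj : IntermediateField.adjoin (Kt s) ({z | ∃ i j, z = σ g i / σ g j} ∪ Set.range R) =
      IntermediateField.adjoin (Kt s) ({z | ∃ i j, z = g i / g j} ∪ Set.range R) := by
    apply le_antisymm
    · rw [IntermediateField.adjoin_le_iff]
      rintro _ (⟨i, j, rfl⟩ | ⟨l, rfl⟩)
      · have h1 : σ g i / σ g j = algebraMap (Kt s) M (u i / u j) * (g i / g j) := by
          rw [map_div₀]
          exact mul_div_mul_comm _ _ _ _
        rw [h1]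
        exact mul_mem (IntermediateField.algebraMap_mem _ _)
          (IntermediateField.subset_adjoin _ _ (Or.inl ⟨i, j, rfl⟩))
      · exact IntermediateField.subset_adjoin _ _ (Or.inr ⟨_, rfl⟩)
    · rw [IntermediateField.adjoin_le_iff]
      rintro _ (⟨i, j, rfl⟩ | ⟨l, rfl⟩)
      · have h1 : g i / g j = algebraMap (Kt s) M (u j / u i) * (σ g i / σ g j) := by
          have h2 : σ g i / σ g j = algebraMap (Kt s) M (u i / u j) * (g i / g j) := by
            rw [map_div₀]
            exact mul_div_mul_comm _ _ _ _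
          rw [h2, ← mul_assoc, ← map_mul, div_mul_div_comm, mul_comm (u j), div_self
            (mul_ne_zero (hu0 i) (hu0 j)), map_one, one_mul]
        rw [h1]
        exact mul_mem (IntermediateField.algebraMap_mem _ _)
          (IntermediateField.subset_adjoin _ _ (Or.inl ⟨i, j, rfl⟩))
      · exact IntermediateField.subset_adjoin _ _ (Or.inr ⟨_, rfl⟩)
  refine main_auxB D hj0 hj1 hT0 hT1 hTD hF' hB hco (σ g) R (hσ0 g hg0) ?_ hy hc ?_ (σ l) ?_ ?_
  · rw [fam_scale]
    have h1 : (fun i => algebraMap ℂ M (sc c⁻¹ i) * σ g i) = g := by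
      funext i
      show algebraMap ℂ M (sc c⁻¹ i) * (algebraMap (Kt s) M (u i) * g i) = g i
      rw [← mul_assoc, huv, one_mul]
    rw [h1, hg, mul_zero]
  · rw [hadj]
    exact hodd
  · intro i
    exact (isAlgebraic_algebraMap _).mul (hl i)
  · refine Relation.ReflTransGen.lift σ (fun a b h => ?_) _ _ hch
    obtain ⟨ha, hb, d, Cc, hd, hC, ⟨e1, he1, h1⟩, e2, he2, h2⟩ := h
    refine ⟨hσ0 a ha, hσ0 b hb, d, fun i => Polynomial.C (algebraMap (Kt s) M (u i)) * Cc i,
      fun i => ?_, ?_, ⟨e1, he1, fun i => ?_⟩, e2, he2, fun i => ?_⟩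
    · exact (Polynomial.natDegree_C_mul_le _ _).trans (hd i)
    · rw [fam_scale]
      have h3 : (fun i => algebraMap ℂ (Polynomial M) (sc c⁻¹ i) *
          (Polynomial.C (algebraMap (Kt s) M (u i)) * Cc i)) = Cc := by
        funext i
        have h4 : algebraMap ℂ (Polynomial M) (sc c⁻¹ i) =
            Polynomial.C (algebraMap ℂ M (sc c⁻¹ i)) := rfl
        rw [h4, ← mul_assoc, ← Polynomial.C_mul, huv, Polynomial.C_1, one_mul]
      rw [h3, hC, mul_zero]
    · rw [Polynomial.coeff_C_mul, h1]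
      show _ = e1 * (algebraMap (Kt s) M (u i) * a i)
      ring
    · rw [Polynomial.coeff_C_mul, h2]
      show _ = e2 * (algebraMap (Kt s) M (u i) * b i)
      ring

end

end Pool.Agent.H901.TS
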