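import Pool.Agent.H901.TS.Mn

/-! # Very general members of linear systems -/

set_option autoImplicit false
set_option linter.unusedSectionVars false
set_option linter.unusedVariables false

namespace Pool.Agent.H901.TS

open MvPolynomial FF Module Pool.Agent.Helper93K9.PAR Pool.Agent.H900.LF
open Pool.Agent.H900.PN hiding newton seg core
open Pool.Agent.H900.PC (gp1 ey sc Fsc coeff_Fsc indep_same base_gen fam_scale sc_ne sc_inv)

noncomputable section

theorem exists_basis {V I : Type} [AddCommGroup V] [Module ℂ V] [FiniteDimensional ℂ V]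
    {v : I → V} (hv : LinearIndependent ℂ v) :
    ∃ (J : Type) (_ : Finite J) (b : Basis (I ⊕ J) ℂ V), ∀ i, b (Sum.inl i) = v i := by
  classical
  refine ⟨Basis.sumExtendIndex hv, ?_, Basis.sumExtend hv, fun i => ?_⟩
  · have h1 : Finite (I ⊕ Basis.sumExtendIndex hv) := Module.Finite.finite_basis (Basis.sumExtend hv)
    exact Finite.of_injective (Sum.inr : Basis.sumExtendIndex hv → I ⊕ Basis.sumExtendIndex hv)
      Sum.inr_injective
  · simp [Basis.sumExtend]
    rfl

variable {r : ℕ}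

theorem fin_deg (r : ℕ) : Set.Finite {β : Fin r →₀ ℕ | β.degree = 3} := by
  have h2 := Finsupp.finite_of_degree_le (σ := Fin r) 3
  exact h2.subset fun β (hβ : β.degree = 3) => le_of_eq hβ

/-- a linear functional on the families of forms of degree three -/
theorem functional {T : Type} [Fintype T] [DecidableEq T]
    (lam : (T → MvPolynomial (Fin r) ℂ) →ₗ[ℂ] ℂ) {F : T → MvPolynomial (Fin r) ℂ}
    (hF : ∀ τ, (F τ).IsHomogeneous 3) :
    lam F = ∑ τ, ∑ β ∈ (fin_deg r).toFinset,
      lam (Pi.single τ (monomial β 1)) * coeff β (F τ) := by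
  classical
  have h1 : ∀ p : MvPolynomial (Fin r) ℂ, p.IsHomogeneous 3 →
      p = ∑ β ∈ (fin_deg r).toFinset, monomial β (coeff β p) := by
    intro p hp
    ext β
    rw [coeff_sum]
    by_cases h3 : β.degree = 3
    · rw [Finset.sum_eq_single β]
      · rw [coeff_monomial, if_pos rfl]
      · intro β' _ h
        rw [coeff_monomial, if_neg h]
      · intro h
        exact absurd ((fin_deg r).mem_toFinset.2 h3) h
    · rw [hp.coeff_eq_zero h3, Finset.sum_eq_zero]
      intro β' h
      rw [coeff_monomial, if_neg]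
      rintro rfl
      exact h3 ((fin_deg r).mem_toFinset.1 h)
  have h2 : F = ∑ τ, ∑ β ∈ (fin_deg r).toFinset,
      (coeff β (F τ)) • (Pi.single τ (monomial β (1 : ℂ)) : T → MvPolynomial (Fin r) ℂ) := by
    funext τ'
    rw [Finset.sum_apply, Finset.sum_eq_single τ']
    · rw [Finset.sum_apply]
      conv_lhs => rw [h1 _ (hF τ')]
      refine Finset.sum_congr rfl fun β _ => ?_
      rw [Pi.smul_apply, Pi.single_eq_same, smul_monomial, smul_eq_mul, mul_one]
    · intro τ _ h
      rw [Finset.sum_apply]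
      refine Finset.sum_eq_zero fun β _ => ?_
      rw [Pi.smul_apply, Pi.single_eq_of_ne h.symm, smul_zero]
    · intro h
      exact absurd (Finset.mem_univ _) h
  conv_lhs => rw [h2]
  rw [map_sum]
  refine Finset.sum_congr rfl fun τ _ => ?_
  rw [map_sum]
  refine Finset.sum_congr rfl fun β _ => ?_
  rw [map_smul, smul_eq_mul, mul_comm]

theorem very_general {T : Type} [Finite T] (W : Submodule ℂ (T → MvPolynomial (Fin r) ℂ))
    (hW : ∀ F ∈ W, ∀ τ, (F τ).IsHomogeneous 3) {J : Type} [Fintype J] (b : Basis J ℂ W)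
    (H : T → MvPolynomial (Fin r) ℂ) (hH : ∀ τ, (H τ).IsHomogeneous 3) :
    ∃ (k0 : IntermediateField ℚ ℂ) (_ : Countable k0)
      (Ps : Set (MvPolynomial (T × (Fin r →₀ ℕ)) ℂ)), Ps.Countable ∧
      (∀ j τ β, coeff β ((b j).1 τ) ∈ k0) ∧ (∀ τ β, coeff β (H τ) ∈ k0) ∧
      (∀ Q ∈ Ps, ∃ F : T → MvPolynomial (Fin r) ℂ, F - H ∈ W ∧
        aeval (fun c : T × (Fin r →₀ ℕ) => coeff c.2 (F c.1)) Q ≠ 0) ∧
      ∀ (F : T → MvPolynomial (Fin r) ℂ) (hF : F - H ∈ W),
        (∀ Q ∈ Ps, aeval (fun c : T × (Fin r →₀ ℕ) => coeff c.2 (F c.1)) Q ≠ 0) →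
        AlgebraicIndependent k0 (fun j : J => b.repr ⟨F - H, hF⟩ j) := by
  classical
  have hTf : Fintype T := Fintype.ofFinite T
  obtain ⟨k0, hk0⟩ : ∃ k0 : IntermediateField ℚ ℂ, k0 = IntermediateField.adjoin ℚ
    (Set.range (Sum.elim (fun p : J × T × (Fin r →₀ ℕ) => coeff p.2.2 ((b p.1).1 p.2.1))
      (fun p : T × (Fin r →₀ ℕ) => coeff p.2 (H p.1)))) := ⟨_, rfl⟩
  have hTc : Countable T := Finite.to_countable
  have hcount : Countable k0 := by
    rw [hk0]
    exact Pool.Agent.H900.PC.countable_adjoin (Set.countable_range _)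
  -- the coordinate functionals
  have hlam : ∀ j, ∃ lam : (T → MvPolynomial (Fin r) ℂ) →ₗ[ℂ] ℂ, ∀ v : W,
      lam v.1 = b.repr v j := by
    intro j
    obtain ⟨g, hg⟩ := LinearMap.exists_extend (b.coord j)
    refine ⟨g, fun v => ?_⟩
    have h1 := LinearMap.congr_fun hg v
    rw [LinearMap.comp_apply, Submodule.subtype_apply, Basis.coord_apply] at h1
    exact h1
  choose lam hlam using hlam
  let L : J → MvPolynomial (T × (Fin r →₀ ℕ)) ℂ := fun j =>
    (∑ τ, ∑ β ∈ (fin_deg r).toFinset, C (lam j (Pi.single τ (monomial β 1))) * X (τ, β)) -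
      C (lam j H)
  have hL : ∀ (F : T → MvPolynomial (Fin r) ℂ) (hF : F - H ∈ W) (j : J),
      aeval (fun c : T × (Fin r →₀ ℕ) => coeff c.2 (F c.1)) (L j) =
        b.repr ⟨F - H, hF⟩ j := by
    intro F hF j
    have h1 : ∀ τ, (F τ).IsHomogeneous 3 := by
      intro τ
      have h2 : ((F - H) τ).IsHomogeneous 3 := hW _ hF τ
      have h3 := h2.add (hH τ)
      rwa [Pi.sub_apply, sub_add_cancel] at h3
    have h4 := hlam j ⟨F - H, hF⟩
    rw [← h4]
    show aeval (fun c : T × (Fin r →₀ ℕ) => coeff c.2 (F c.1))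
      ((∑ τ, ∑ β ∈ (fin_deg r).toFinset, C (lam j (Pi.single τ (monomial β 1))) * X (τ, β)) -
      C (lam j H)) = lam j (F - H)
    rw [map_sub (lam j), functional (lam j) h1, map_sub, map_sum, aeval_C]
    congr 1
    refine Finset.sum_congr rfl fun τ _ => ?_
    rw [map_sum]
    refine Finset.sum_congr rfl fun β _ => ?_
    rw [map_mul, aeval_C, aeval_X]
    rfl
  let Q : MvPolynomial J k0 → MvPolynomial (T × (Fin r →₀ ℕ)) ℂ := fun P =>
    aeval L (map (algebraMap k0 ℂ) P)
  have hQ : ∀ (F : T → MvPolynomial (Fin r) ℂ) (hF : F - H ∈ W) P,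
      aeval (fun c : T × (Fin r →₀ ℕ) => coeff c.2 (F c.1)) (Q P) =
        aeval (fun j : J => b.repr ⟨F - H, hF⟩ j) P := by
    intro F hF P
    show aeval (fun c : T × (Fin r →₀ ℕ) => coeff c.2 (F c.1))
      (aeval L (map (algebraMap k0 ℂ) P)) = _
    rw [comp_aeval_apply, aeval_map_algebraMap]
    congr 2
    funext j
    exact hL F hF j
  refine ⟨k0, hcount, Q '' {P | P ≠ 0}, ?_, ?_, ?_, ?_, ?_⟩
  · have : Countable (MvPolynomial J k0) := AddMonoidAlgebra.coeff_injective.countable
    exact (Set.to_countable _).image _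
  · intro j τ β
    rw [hk0]
    exact IntermediateField.subset_adjoin _ _ ⟨Sum.inl (j, τ, β), rfl⟩
  · intro τ β
    rw [hk0]
    exact IntermediateField.subset_adjoin _ _ ⟨Sum.inr (τ, β), rfl⟩
  · rintro _ ⟨P, hP, rfl⟩
    have hP0 : map (algebraMap k0 ℂ) P ≠ 0 := by
      intro h
      apply hP
      apply map_injective (algebraMap k0 ℂ) (algebraMap k0 ℂ).injective
      rw [h, map_zero]
    obtain ⟨a, ha⟩ : ∃ a : J → ℂ, eval a (map (algebraMap k0 ℂ) P) ≠ 0 := by
      by_contra hcon
      push Not at hcon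
      apply hP0
      apply MvPolynomial.funext
      intro x
      rw [hcon x, map_zero]
    let F : T → MvPolynomial (Fin r) ℂ := H + (∑ j, a j • b j : W).1
    have hFH : F - H = (∑ j, a j • b j : W).1 := by
      show H + (∑ j, a j • b j : W).1 - H = _
      rw [add_sub_cancel_left]
    have hF : F - H ∈ W := by
      rw [hFH]
      exact (∑ j, a j • b j : W).2
    refine ⟨F, hF, ?_⟩
    rw [hQ F hF P]
    have h1 : (fun j : J => b.repr ⟨F - H, hF⟩ j) = a := by
      have h2 : (⟨F - H, hF⟩ : W) = ∑ j, a j • b j := Subtype.ext hFH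
      rw [h2]
      exact Basis.repr_sum_self b a
    rw [h1]
    have h3 : aeval a P = eval a (map (algebraMap k0 ℂ) P) := by
      rw [eval_map, aeval_def]
    rw [h3]
    exact ha
  · intro F hF hne
    rw [algebraicIndependent_iff]
    intro P h
    by_contra hP
    refine hne (Q P) ⟨P, hP, rfl⟩ ?_
    rw [hQ F hF P]
    exact h

end

end Pool.Agent.H901.TS
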